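import Pool.Agent.Q74.AR.Def

/-! # Project AR: the jobs Rep and Big -/

set_option autoImplicit false

namespace Q37.AR

open Finset
open Pool.Agent.Q158.Pair (T step av q w w0 sq surv e od nb T_even T_odd od_even od_odd nb_even nb_odd
  pair_step per_sum sum_two cop2)
open Pool.Agent.Q74.AR

lemma Sg_zero (x y : ℤ) : Sg 0 x y = 0 := by simp [Sg]

lemma Sg_succ (n : ℕ) (x y : ℤ) :
    Sg (n + 1) x y = (if (x + y) % 2 = 0 then 1 else -1) + Sg n (T x) (T y) := by
  unfold Sg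
  rw [Finset.sum_range_succ', add_comm]
  rfl

lemma Sg_comm (n : ℕ) (x y : ℤ) : Sg n x y = Sg n y x := by
  unfold Sg
  refine Finset.sum_congr rfl fun j _ => ?_
  rw [add_comm]

lemma T_add (n : ℕ) (x i : ℤ) : ∃ i' : ℤ, T (x + 2 ^ (n + 1) * i) = T x + 2 ^ n * i' := by
  rcases Int.even_or_odd' x with ⟨m, rfl | rfl⟩
  · refine ⟨i, ?_⟩
    have : 2 * m + 2 ^ (n + 1) * i = 2 * (m + 2 ^ n * i) := by ring
    rw [this, T_even, T_even]
  · refine ⟨3 * i, ?_⟩
    have : 2 * m + 1 + 2 ^ (n + 1) * i = 2 * (m + 2 ^ n * i) + 1 := by ring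
    rw [this, T_odd, T_odd]
    ring

lemma Sg_per (n : ℕ) (x y i j : ℤ) : Sg n (x + 2 ^ n * i) (y + 2 ^ n * j) = Sg n x y := by
  induction n generalizing x y i j with
  | zero => rw [Sg_zero, Sg_zero]
  | succ n ih =>
    rw [Sg_succ, Sg_succ]
    obtain ⟨i', hi⟩ := T_add n x i
    obtain ⟨j', hj⟩ := T_add n y j
    rw [hi, hj, ih]
    have : (x + 2 ^ (n + 1) * i + (y + 2 ^ (n + 1) * j)) % 2 = (x + y) % 2 := by
      have : x + 2 ^ (n + 1) * i + (y + 2 ^ (n + 1) * j) = (x + y) + 2 * (2 ^ n * (i + j)) := by ring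
      rw [this, Int.add_mul_emod_self_left]
    rw [this]

lemma three_pow_odd (a : ℕ) : ((3:ℤ) ^ a) % 2 = 1 := by
  have := Pool.Agent.Q158.Pair.e_spec a
  omega

lemma par (z : ℕ × ℤ) (x : ℤ) : (x + (3 ^ z.1 * x + z.2)) % 2 = 0 ↔ z.2 % 2 = 0 := by
  have h := Pool.Agent.Q158.Pair.e_spec z.1
  have : x + (3 ^ z.1 * x + z.2) = z.2 + 2 * (x + e z.1 * x) := by rw [← h]; ring
  rw [this, Int.add_mul_emod_self_left]

lemma Sg_pair (n : ℕ) (z : ℕ × ℤ) (x : ℤ) :
    Sg (n + 1) x (3 ^ z.1 * x + z.2) =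
      sg z + Sg n (nb z x) (3 ^ (step (od x) z).1 * nb z x + (step (od x) z).2) := by
  rw [Sg_succ]
  congr 1
  · unfold sg
    simp only [par z x]
  · rcases pair_step z x with ⟨h1, h2⟩ | ⟨h1, h2⟩
    · rw [h1, h2]
    · rw [h1, h2, Sg_comm]

theorem rep : S_Rep := by
  intro n
  induction n with
  | zero => intro z; simp [Sg_zero]
  | succ n ih =>
    intro z
    have hper : ∀ (z' : ℕ × ℤ) (x j : ℤ),
        (fun y : ℤ => (Sg n y (3 ^ z'.1 * y + z'.2) : ℝ)) (x + ((2 ^ n : ℕ) : ℤ) * j) =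
          (fun y : ℤ => (Sg n y (3 ^ z'.1 * y + z'.2) : ℝ)) x := by
      intro z' x j
      simp only
      have : 3 ^ z'.1 * (x + ((2 ^ n : ℕ) : ℤ) * j) + z'.2 = (3 ^ z'.1 * x + z'.2) + 2 ^ n * (3 ^ z'.1 * j) := by
        push_cast; ring
      rw [this]
      push_cast
      rw [Sg_per]
    have hL : ∑ j ∈ range (n + 1), av^[j] (fun z => (sg z : ℝ)) z =
        (sg z : ℝ) + (∑ j ∈ range n, av^[j] (fun z => (sg z : ℝ)) (step false z) +
          ∑ j ∈ range n, av^[j] (fun z => (sg z : ℝ)) (step true z)) / 2 := by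
      rw [Finset.sum_range_succ', add_comm]
      congr 1
      rw [← Finset.sum_add_distrib, Finset.sum_div]
      refine Finset.sum_congr rfl fun j _ => ?_
      rw [Function.iterate_succ_apply']
      rfl
    rw [hL, ih, ih]
    have h2 : ∑ r ∈ range (2 ^ (n + 1)), (Sg (n + 1) r (3 ^ z.1 * (r : ℤ) + z.2) : ℝ) =
        2 ^ (n + 1) * (sg z : ℝ) +
          (∑ r ∈ range (2 ^ n), (Sg n r (3 ^ (step false z).1 * (r : ℤ) + (step false z).2) : ℝ) +
           ∑ r ∈ range (2 ^ n), (Sg n r (3 ^ (step true z).1 * (r : ℤ) + (step true z).2) : ℝ)) := by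
      have h3 := sum_two (fun x : ℤ => (Sg (n + 1) x (3 ^ z.1 * x + z.2) : ℝ)) (2 ^ n)
      rw [show 2 ^ (n + 1) = 2 * 2 ^ n by ring]
      rw [h3]
      have h4 : ∑ i ∈ range (2 ^ n), (Sg (n + 1) (2 * (i:ℤ)) (3 ^ z.1 * (2 * (i:ℤ)) + z.2) : ℝ) =
          2 ^ n * (sg z : ℝ) +
            ∑ r ∈ range (2 ^ n), (Sg n r (3 ^ (step false z).1 * (r : ℤ) + (step false z).2) : ℝ) := by
        simp only [Sg_pair, od_even, nb_even]
        push_cast
        rw [Finset.sum_add_distrib]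
        simp
      have h5 : ∑ i ∈ range (2 ^ n), (Sg (n + 1) (2 * (i:ℤ) + 1) (3 ^ z.1 * (2 * (i:ℤ) + 1) + z.2) : ℝ) =
          2 ^ n * (sg z : ℝ) +
            ∑ r ∈ range (2 ^ n), (Sg n r (3 ^ (step true z).1 * (r : ℤ) + (step true z).2) : ℝ) := by
        simp only [Sg_pair, od_odd, nb_odd]
        push_cast
        rw [Finset.sum_add_distrib]
        congr 1
        · simp
        · by_cases h : z.1 = 0 ∧ z.2 % 2 = 1
          · have := per_sum (2 ^ n) (by positivity)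
              (fun y : ℤ => (Sg n y (3 ^ (step true z).1 * y + (step true z).2) : ℝ))
              (fun x j => hper (step true z) x j) 1 isCoprime_one_left (z.2 / 2 + 1)
            rw [← this]
            refine Finset.sum_congr rfl fun i _ => ?_
            have e1 : (1:ℤ) * i + (z.2 / 2 + 1) = i + z.2 / 2 + 1 := by ring
            rw [e1, if_pos h]
          · have := per_sum (2 ^ n) (by positivity)
              (fun y : ℤ => (Sg n y (3 ^ (step true z).1 * y + (step true z).2) : ℝ))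
              (fun x j => hper (step true z) x j) 3 (cop2 n 3 (by norm_num)) 2
            rw [← this]
            refine Finset.sum_congr rfl fun i _ => ?_
            rw [if_neg h]
      rw [h4, h5]
      ring
    rw [h2]
    have h6 : (2:ℝ) ^ n ≠ 0 := by positivity
    rw [pow_succ]
    field_simp

/-- the exponential sum -/
lemma expsum (θ : ℝ) (n : ℕ) :
    ∑ r ∈ range (2 ^ n), ∑ s ∈ range (2 ^ n), Real.exp (θ * (Sg n r s : ℝ)) =
      4 ^ n * Real.cosh θ ^ n := by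
  induction n with
  | zero => simp [Sg_zero]
  | succ n ih =>
    have hperx : ∀ (y x j : ℤ),
        (fun x : ℤ => Real.exp (θ * (Sg n x y : ℝ))) (x + ((2 ^ n : ℕ) : ℤ) * j) =
          (fun x : ℤ => Real.exp (θ * (Sg n x y : ℝ))) x := by
      intro y x j
      have := Sg_per n x y j 0
      simp only
      push_cast
      rw [mul_zero, add_zero] at this
      rw [this]
    have hpery : ∀ (x y j : ℤ),
        (fun y : ℤ => Real.exp (θ * (Sg n x y : ℝ))) (y + ((2 ^ n : ℕ) : ℤ) * j) =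
          (fun y : ℤ => Real.exp (θ * (Sg n x y : ℝ))) y := by
      intro x y j
      have := Sg_per n x y 0 j
      simp only
      push_cast
      rw [mul_zero, add_zero] at this
      rw [this]
    have key : ∀ (u c v d : ℤ), u % 2 = 1 → v % 2 = 1 →
        ∑ r ∈ range (2 ^ n), ∑ s ∈ range (2 ^ n), Real.exp (θ * (Sg n (u * r + c) (v * s + d) : ℝ)) =
          ∑ r ∈ range (2 ^ n), ∑ s ∈ range (2 ^ n), Real.exp (θ * (Sg n r s : ℝ)) := by
      intro u c v d hu hv
      have h1 : ∀ r : ℕ, ∑ s ∈ range (2 ^ n), Real.exp (θ * (Sg n (u * r + c) (v * s + d) : ℝ)) =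
          ∑ s ∈ range (2 ^ n), Real.exp (θ * (Sg n (u * r + c) s : ℝ)) := by
        intro r
        exact per_sum (2 ^ n) (by positivity) (fun y : ℤ => Real.exp (θ * (Sg n (u * r + c) y : ℝ)))
          (fun x j => hpery (u * r + c) x j) v (cop2 n v hv) d
      simp only [h1]
      rw [Finset.sum_comm, Finset.sum_comm (s := range (2 ^ n)) (t := range (2 ^ n))
        (f := fun r s : ℕ => Real.exp (θ * (Sg n r s : ℝ)))]
      refine Finset.sum_congr rfl fun s _ => ?_
      exact per_sum (2 ^ n) (by positivity) (fun x : ℤ => Real.exp (θ * (Sg n x s : ℝ)))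
        (fun x j => hperx s x j) u (cop2 n u hu) c
    have e1 : ∀ (G : ℤ), Real.exp (θ * ((1 + G : ℤ) : ℝ)) = Real.exp θ * Real.exp (θ * (G : ℝ)) := by
      intro G
      rw [← Real.exp_add]; congr 1; push_cast; ring
    have e1' : ∀ (G : ℤ), Real.exp (θ * ((-1 + G : ℤ) : ℝ)) = Real.exp (-θ) * Real.exp (θ * (G : ℝ)) := by
      intro G
      rw [← Real.exp_add]; congr 1; push_cast; ring
    have hsplit : ∀ r : ℤ, ∑ s ∈ range (2 * 2 ^ n), Real.exp (θ * (Sg (n + 1) r s : ℝ)) =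
        ∑ s ∈ range (2 ^ n), Real.exp (θ * (Sg (n + 1) r (2 * (s:ℤ)) : ℝ)) +
        ∑ s ∈ range (2 ^ n), Real.exp (θ * (Sg (n + 1) r (2 * (s:ℤ) + 1) : ℝ)) := by
      intro r
      exact sum_two (fun s : ℤ => Real.exp (θ * (Sg (n + 1) r s : ℝ))) (2 ^ n)
    rw [show 2 ^ (n + 1) = 2 * 2 ^ n by ring]
    have h0 := sum_two (fun r : ℤ => ∑ s ∈ range (2 * 2 ^ n), Real.exp (θ * (Sg (n + 1) r s : ℝ))) (2 ^ n)
    rw [h0]
    simp only [hsplit]
    rw [Finset.sum_add_distrib, Finset.sum_add_distrib]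
    have p1 : ∀ r s : ℤ, (2 * r + 2 * s) % 2 = 0 := by intro r s; omega
    have p2 : ∀ r s : ℤ, ¬ (2 * r + (2 * s + 1)) % 2 = 0 := by intro r s; omega
    have p3 : ∀ r s : ℤ, ¬ (2 * r + 1 + 2 * s) % 2 = 0 := by intro r s; omega
    have p4 : ∀ r s : ℤ, (2 * r + 1 + (2 * s + 1)) % 2 = 0 := by intro r s; omega
    have g1 : ∑ r ∈ range (2 ^ n), ∑ s ∈ range (2 ^ n), Real.exp (θ * (Sg (n + 1) (2 * (r:ℤ)) (2 * (s:ℤ)) : ℝ)) =
        Real.exp θ * (4 ^ n * Real.cosh θ ^ n) := by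
      simp only [Sg_succ, p1, if_true, T_even, e1]
      rw [← ih, Finset.mul_sum]
      refine Finset.sum_congr rfl fun r _ => ?_
      rw [Finset.mul_sum]
    have g2 : ∑ r ∈ range (2 ^ n), ∑ s ∈ range (2 ^ n), Real.exp (θ * (Sg (n + 1) (2 * (r:ℤ)) (2 * (s:ℤ) + 1) : ℝ)) =
        Real.exp (-θ) * (4 ^ n * Real.cosh θ ^ n) := by
      simp only [Sg_succ, p2, if_false, T_even, T_odd, e1']
      have := key 1 0 3 2 (by norm_num) (by norm_num)
      simp only [one_mul, add_zero] at this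
      rw [← ih, ← this, Finset.mul_sum]
      refine Finset.sum_congr rfl fun r _ => ?_
      rw [Finset.mul_sum]
    have g3 : ∑ r ∈ range (2 ^ n), ∑ s ∈ range (2 ^ n), Real.exp (θ * (Sg (n + 1) (2 * (r:ℤ) + 1) (2 * (s:ℤ)) : ℝ)) =
        Real.exp (-θ) * (4 ^ n * Real.cosh θ ^ n) := by
      simp only [Sg_succ, p3, if_false, T_even, T_odd, e1']
      have := key 3 2 1 0 (by norm_num) (by norm_num)
      simp only [one_mul, add_zero] at this
      rw [← ih, ← this, Finset.mul_sum]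
      refine Finset.sum_congr rfl fun r _ => ?_
      rw [Finset.mul_sum]
    have g4 : ∑ r ∈ range (2 ^ n), ∑ s ∈ range (2 ^ n), Real.exp (θ * (Sg (n + 1) (2 * (r:ℤ) + 1) (2 * (s:ℤ) + 1) : ℝ)) =
        Real.exp θ * (4 ^ n * Real.cosh θ ^ n) := by
      simp only [Sg_succ, p4, if_true, T_odd, e1]
      have := key 3 2 3 2 (by norm_num) (by norm_num)
      rw [← ih, ← this, Finset.mul_sum]
      refine Finset.sum_congr rfl fun r _ => ?_
      rw [Finset.mul_sum]
    rw [g1, g2, g3, g4, pow_succ, pow_succ]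
    have hc : Real.cosh θ = (Real.exp θ + Real.exp (-θ)) / 2 := Real.cosh_eq θ
    linear_combination (-(4 * 4 ^ n * Real.cosh θ ^ n)) * hc

theorem big_job : S_Big := by
  intro n δ hδ
  refine ⟨fun x y i j => ?_, ?_⟩
  · unfold big
    rw [Sg_per]
  have hb : ∀ x y : ℤ, big δ n x y ≤ Real.exp (-(δ * (δ * n))) *
      (Real.exp (δ * (Sg n x y : ℝ)) + Real.exp (-δ * (Sg n x y : ℝ))) := by
    intro x y
    unfold big
    split_ifs with h
    · rcases le_abs.mp h with h1 | h1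
      · have h2 : Real.exp (-(δ * (δ * n))) * Real.exp (δ * (Sg n x y : ℝ)) ≥ 1 := by
          rw [← Real.exp_add]
          apply Real.one_le_exp
          have := mul_le_mul_of_nonneg_left h1 hδ
          linarith
        have h3 : 0 ≤ Real.exp (-(δ * (δ * n))) * Real.exp (-δ * (Sg n x y : ℝ)) := by positivity
        rw [mul_add]
        linarith
      · have h2 : Real.exp (-(δ * (δ * n))) * Real.exp (-δ * (Sg n x y : ℝ)) ≥ 1 := by
          rw [← Real.exp_add]
          apply Real.one_le_exp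
          have := mul_le_mul_of_nonneg_left h1 hδ
          linarith
        have h3 : 0 ≤ Real.exp (-(δ * (δ * n))) * Real.exp (δ * (Sg n x y : ℝ)) := by positivity
        rw [mul_add]
        linarith
    · positivity
  have h1 : ∑ r ∈ range (2 ^ n), ∑ s ∈ range (2 ^ n), big δ n r s ≤
      ∑ r ∈ range (2 ^ n), ∑ s ∈ range (2 ^ n), Real.exp (-(δ * (δ * n))) *
      (Real.exp (δ * (Sg n r s : ℝ)) + Real.exp (-δ * (Sg n r s : ℝ))) :=
    Finset.sum_le_sum fun r _ => Finset.sum_le_sum fun s _ => hb r s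
  have h2 : ∑ r ∈ range (2 ^ n), ∑ s ∈ range (2 ^ n), Real.exp (-(δ * (δ * n))) *
      (Real.exp (δ * (Sg n r s : ℝ)) + Real.exp (-δ * (Sg n r s : ℝ))) =
      Real.exp (-(δ * (δ * n))) * (4 ^ n * Real.cosh δ ^ n + 4 ^ n * Real.cosh δ ^ n) := by
    have e2 := expsum δ n
    have e3 := expsum (-δ) n
    rw [Real.cosh_neg] at e3
    rw [← e2] at e3
    conv_rhs => rw [← e2]
    conv_rhs => enter [2, 2]; rw [← e3]
    rw [← Finset.sum_add_distrib, Finset.mul_sum]
    refine Finset.sum_congr rfl fun r _ => ?_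
    rw [← Finset.sum_add_distrib, Finset.mul_sum]
  refine h1.trans (h2.le.trans ?_)
  have h3 : Real.cosh δ ^ n ≤ Real.exp (δ ^ 2 / 2) ^ n :=
    pow_le_pow_left₀ (Real.cosh_pos δ).le (Real.cosh_le_exp_half_sq δ) n
  have h4 : Real.exp (δ ^ 2 / 2) ^ n = Real.exp (δ ^ 2 * n / 2) := by
    rw [← Real.exp_nat_mul]; congr 1; ring
  rw [h4] at h3
  have h5 : Real.exp (-(δ * (δ * n))) * Real.exp (δ ^ 2 * n / 2) = Real.exp (-(δ ^ 2 * n / 2)) := by
    rw [← Real.exp_add]; congr 1; ring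
  rw [← h5]
  have h6 : 0 < Real.exp (-(δ * (δ * n))) := Real.exp_pos _
  have h7 : (0:ℝ) < 4 ^ n := by positivity
  calc Real.exp (-(δ * (δ * n))) * (4 ^ n * Real.cosh δ ^ n + 4 ^ n * Real.cosh δ ^ n)
      ≤ Real.exp (-(δ * (δ * n))) * (4 ^ n * Real.exp (δ ^ 2 * n / 2) + 4 ^ n * Real.exp (δ ^ 2 * n / 2)) := by
        gcongr
    _ = _ := by ring

end Q37.AR
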